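import Mathlib

/-!
# Expanding sets support KMF means

For every Bohr set `B` take an invariant mean charging `S ∩ B`, restrict it to `S ∩ B`, normalise,
and pass to an ultrafilter limit along the Bohr sets.
-/

set_option autoImplicit false

namespace Pool.Agent.Results.MP_49446c_co.KMFMeans

open MeasureTheory Filter Topology BoundedContinuousFunction

variable {G : Type*} [CommGroup G] [TopologicalSpace G] [DiscreteTopology G]

/-- A bounded function on the discrete group `G`. -/
noncomputable def mk (f : G → ℝ) (C : ℝ) (h : ∀ g, ‖f g‖ ≤ C) : G →ᵇ ℝ :=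
  BoundedContinuousFunction.ofNormedAddCommGroup f continuous_of_discreteTopology C h

omit [CommGroup G] in
theorem mk_apply (f : G → ℝ) (C : ℝ) (h : ∀ g, ‖f g‖ ≤ C) (g : G) : mk f C h g = f g := rfl

omit [CommGroup G] [TopologicalSpace G] [DiscreteTopology G] in
theorem ind_bound (A : Set G) (g : G) : ‖A.indicator (1 : G → ℝ) g‖ ≤ 1 := by
  by_cases h : g ∈ A <;> simp [h]

/-- The indicator function of a set. -/
noncomputable def ind (A : Set G) : G →ᵇ ℝ := mk (A.indicator 1) 1 (ind_bound A)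

/-- The translate `f (· * h)`. -/
noncomputable def trans (h : G) (f : G →ᵇ ℝ) : G →ᵇ ℝ :=
  mk (fun g => f (g * h)) ‖f‖ (fun g => f.norm_coe_le_norm (g * h))

/-- A mean: a positive linear functional on the bounded functions with value `1` at `1`. -/
structure IsMean (m : (G →ᵇ ℝ) →ₗ[ℝ] ℝ) : Prop where
  nonneg : ∀ f : G →ᵇ ℝ, (∀ g, 0 ≤ f g) → 0 ≤ m f
  one : m 1 = 1

/-- Invariance of a mean. -/
def IsInvariant (m : (G →ᵇ ℝ) →ₗ[ℝ] ℝ) : Prop := ∀ (h : G) (f : G →ᵇ ℝ), m (trans h f) = m f

/-- The upper Banach density. -/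
noncomputable def dstar (A : Set G) : ℝ :=
  sSup {r | ∃ m : (G →ᵇ ℝ) →ₗ[ℝ] ℝ, IsMean m ∧ IsInvariant m ∧ r = m (ind A)}

/-- Bohr sets. -/
def IsBohr (B : Set G) : Prop :=
  ∃ (T : Finset (PontryaginDual G)) (ε : ℝ), 0 < ε ∧ B = {g | ∀ χ ∈ T, ‖(χ g : ℂ) - 1‖ < ε}

/-- `S` meets every almost Bohr set. -/
def Expanding (S : Set G) : Prop :=
  ∀ B E : Set G, IsBohr B → dstar E = 0 → (S ∩ (B \ E)).Nonempty

/-- The Fourier transform of a measure on the dual group. -/
noncomputable def hat [MeasurableSpace (PontryaginDual G)] (μ : Measure (PontryaginDual G))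
    (g : G) : ℂ := ∫ χ, (starRingEnd ℂ) (χ g : ℂ) ∂μ

omit [DiscreteTopology G] in
theorem hat_bound [MeasurableSpace (PontryaginDual G)] (μ : Measure (PontryaginDual G))
    [IsFiniteMeasure μ] (g : G) : ‖‖hat μ g‖‖ ≤ μ.real Set.univ := by
  rw [norm_norm]
  have := norm_integral_le_of_norm_le_const (μ := μ) (f := fun χ : PontryaginDual G =>
    (starRingEnd ℂ) (χ g : ℂ)) (C := 1) (ae_of_all _ fun χ => by
      rw [RCLike.norm_conj, Circle.norm_coe])
  simpa [hat] using this

/-- The function `|μ̂|`. -/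
noncomputable def absHat [MeasurableSpace (PontryaginDual G)] (μ : Measure (PontryaginDual G))
    [IsFiniteMeasure μ] : G →ᵇ ℝ := mk (fun g => ‖hat μ g‖) (μ.real Set.univ) (hat_bound μ)

theorem absHat_nonneg [MeasurableSpace (PontryaginDual G)] (μ : Measure (PontryaginDual G))
    [IsFiniteMeasure μ] (g : G) : 0 ≤ absHat μ g := by
  rw [absHat, mk_apply]
  exact norm_nonneg _

/-- `m` annihilates continuous measures. -/
def Annihilates (m : (G →ᵇ ℝ) →ₗ[ℝ] ℝ) : Prop :=
  ∀ (_ : MeasurableSpace (PontryaginDual G)) (_ : BorelSpace (PontryaginDual G))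
    (μ : Measure (PontryaginDual G)) (_ : IsFiniteMeasure μ), μ.Regular →
      (∀ χ, μ {χ} = 0) → m (absHat μ) = 0

/-- `S` supports a KMF mean. -/
def SupportsKMF (S : Set G) : Prop :=
  ∃ m : (G →ᵇ ℝ) →ₗ[ℝ] ℝ, IsMean m ∧ m (ind S) = 1 ∧ Annihilates m ∧
    ∀ B, IsBohr B → 0 < m (ind B)

section Means

variable {m : (G →ᵇ ℝ) →ₗ[ℝ] ℝ}

omit [CommGroup G] [DiscreteTopology G] in
theorem IsMean.mono (hm : IsMean m) {f f' : G →ᵇ ℝ} (h : ∀ g, f g ≤ f' g) : m f ≤ m f' := by
  have h1 := hm.nonneg (f' - f) (fun g => by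
    rw [BoundedContinuousFunction.sub_apply]
    linarith [h g])
  rw [map_sub] at h1
  linarith

omit [CommGroup G] [DiscreteTopology G] in
theorem IsMean.le_const (hm : IsMean m) {f : G →ᵇ ℝ} {c : ℝ} (h : ∀ g, f g ≤ c) : m f ≤ c := by
  have h1 := hm.mono (f := f) (f' := c • (1 : G →ᵇ ℝ)) (fun g => by simpa using h g)
  rw [map_smul, hm.one, smul_eq_mul, mul_one] at h1
  exact h1

omit [CommGroup G] [DiscreteTopology G] in
theorem IsMean.abs_le (hm : IsMean m) (f : G →ᵇ ℝ) : m f ∈ Set.Icc (-‖f‖) ‖f‖ := by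
  constructor
  · have h1 := hm.le_const (f := -f) (c := ‖f‖) (fun g => by
      have := f.norm_coe_le_norm g
      rw [Real.norm_eq_abs] at this
      rw [BoundedContinuousFunction.neg_apply]
      linarith [neg_abs_le (f g)])
    rw [map_neg] at h1
    linarith
  · exact hm.le_const (fun g => (le_abs_self _).trans (f.norm_coe_le_norm g))

omit [CommGroup G] in
theorem IsMean.ind_nonneg (hm : IsMean m) (A : Set G) : 0 ≤ m (ind A) := by
  refine hm.nonneg _ fun g => ?_
  rw [ind, mk_apply]
  exact Set.indicator_nonneg (fun _ _ => zero_le_one) g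

omit [CommGroup G] in
theorem IsMean.ind_le_one (hm : IsMean m) (A : Set G) : m (ind A) ≤ 1 := by
  refine hm.le_const fun g => ?_
  rw [ind, mk_apply]
  exact (le_abs_self _).trans (ind_bound A g)

omit [CommGroup G] [DiscreteTopology G] in
/-- Limits of means along ultrafilters. -/
theorem exists_limit {ι : Type*} (𝒰 : Ultrafilter ι) (ν : ι → ((G →ᵇ ℝ) →ₗ[ℝ] ℝ))
    (hν : ∀ i, IsMean (ν i)) :
    ∃ m : (G →ᵇ ℝ) →ₗ[ℝ] ℝ, IsMean m ∧ ∀ f, Tendsto (fun i => ν i f) 𝒰 (𝓝 (m f)) := by
  have h1 : ∀ f : G →ᵇ ℝ, ∃ x, Tendsto (fun i => ν i f) 𝒰 (𝓝 x) := by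
    intro f
    have h2 : (𝒰.map (fun i => ν i f) : Filter ℝ) ≤ 𝓟 (Set.Icc (-‖f‖) ‖f‖) := by
      rw [le_principal_iff]
      exact Filter.mem_map.2 (Filter.univ_mem' fun i => (hν i).abs_le f)
    obtain ⟨x, -, hx⟩ := isCompact_Icc.ultrafilter_le_nhds _ h2
    exact ⟨x, hx⟩
  choose L hL using h1
  refine ⟨{ toFun := L, map_add' := fun f f' => ?_, map_smul' := fun c f => ?_ },
    ⟨fun f hf => ?_, ?_⟩, hL⟩
  · refine tendsto_nhds_unique (hL (f + f')) ?_
    simp only [map_add]
    exact (hL f).add (hL f')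
  · refine tendsto_nhds_unique (hL (c • f)) ?_
    simp only [map_smul, smul_eq_mul, RingHom.id_apply]
    exact (hL f).const_mul c
  · exact ge_of_tendsto' (hL f) fun i => (hν i).nonneg f hf
  · refine tendsto_nhds_unique (hL 1) ?_
    simp only [(hν _).one]
    exact tendsto_const_nhds

omit [CommGroup G] in
theorem ind_mul_ind {A B : Set G} (h : A ⊆ B) : ind B * ind A = ind A := by
  ext g
  rw [BoundedContinuousFunction.mul_apply]
  simp only [ind, mk_apply]
  by_cases hg : g ∈ A
  · simp [hg, h hg]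
  · simp [hg]

/-- Restriction and normalisation of a mean. -/
noncomputable def restrict (m : (G →ᵇ ℝ) →ₗ[ℝ] ℝ) (A : Set G) : (G →ᵇ ℝ) →ₗ[ℝ] ℝ :=
  (m (ind A))⁻¹ • (m ∘ₗ LinearMap.mulRight ℝ (ind A))

omit [CommGroup G] in
theorem restrict_apply (A : Set G) (f : G →ᵇ ℝ) :
    restrict m A f = (m (ind A))⁻¹ * m (f * ind A) := rfl

omit [CommGroup G] in
theorem isMean_restrict (hm : IsMean m) {A : Set G} (hA : 0 < m (ind A)) :
    IsMean (restrict m A) := by
  constructor
  · intro f hf
    rw [restrict_apply]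
    refine mul_nonneg (inv_nonneg.2 hA.le) (hm.nonneg _ fun g => ?_)
    rw [BoundedContinuousFunction.mul_apply]
    refine mul_nonneg (hf g) ?_
    rw [ind, mk_apply]
    exact Set.indicator_nonneg (fun _ _ => zero_le_one) g
  · rw [restrict_apply, one_mul, inv_mul_cancel₀ hA.ne']

omit [CommGroup G] in
theorem restrict_ind {A B : Set G} (hA : 0 < m (ind A)) (h : A ⊆ B) :
    restrict m A (ind B) = 1 := by
  rw [restrict_apply, ind_mul_ind h, inv_mul_cancel₀ hA.ne']

end Means

section Wiener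

variable [MeasurableSpace (PontryaginDual G)] [BorelSpace (PontryaginDual G)]

/-- The basic function on pairs of characters. -/
noncomputable def u (z : PontryaginDual G × PontryaginDual G) (g : G) : ℂ :=
  (starRingEnd ℂ) (z.1 g : ℂ) * (z.2 g : ℂ)

omit [DiscreteTopology G] [MeasurableSpace (PontryaginDual G)] [BorelSpace (PontryaginDual G)] in
theorem norm_u (z : PontryaginDual G × PontryaginDual G) (g : G) : ‖u z g‖ = 1 := by
  rw [u, norm_mul, RCLike.norm_conj, Circle.norm_coe, Circle.norm_coe, one_mul]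

omit [DiscreteTopology G] [MeasurableSpace (PontryaginDual G)] [BorelSpace (PontryaginDual G)] in
theorem u_mul (z : PontryaginDual G × PontryaginDual G) (g h : G) : u z (g * h) = u z g * u z h := by
  unfold u
  rw [map_mul, map_mul, Circle.coe_mul, Circle.coe_mul, map_mul]
  ring

omit [DiscreteTopology G] [MeasurableSpace (PontryaginDual G)] [BorelSpace (PontryaginDual G)] in
theorem u_one (z : PontryaginDual G × PontryaginDual G) : u z 1 = 1 := by
  unfold u
  rw [map_one, map_one]
  simp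

omit [DiscreteTopology G] [MeasurableSpace (PontryaginDual G)] [BorelSpace (PontryaginDual G)] in
theorem u_pow (z : PontryaginDual G × PontryaginDual G) (h : G) (n : ℕ) :
    u z (h ^ n) = u z h ^ n := by
  induction n with
  | zero => rw [pow_zero, pow_zero, u_one]
  | succ n ih => rw [pow_succ, pow_succ, u_mul, ih]

omit [DiscreteTopology G] [MeasurableSpace (PontryaginDual G)] [BorelSpace (PontryaginDual G)] in
theorem continuous_eval (g : G) : Continuous fun χ : PontryaginDual G => (χ g : ℂ) := by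
  have h1 : Continuous fun χ : PontryaginDual G => (χ g : Circle) := by
    exact continuous_eval_const (F := G →ₜ* Circle) g
  exact continuous_subtype_val.comp h1

omit [DiscreteTopology G] in
theorem measurable_u (g : G) :
    Measurable fun z : PontryaginDual G × PontryaginDual G => u z g := by
  have h1 : Measurable fun χ : PontryaginDual G => (χ g : ℂ) := (continuous_eval g).measurable
  unfold u
  exact ((Complex.continuous_conj.measurable.comp h1).comp measurable_fst).mul
    (h1.comp measurable_snd)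

/-- The averaged function. -/
noncomputable def av (N : ℕ) (h : G) (z : PontryaginDual G × PontryaginDual G) : ℂ :=
  (1 / ((N : ℂ) + 1)) * ∑ n ∈ Finset.range (N + 1), u z h ^ n

theorem measurable_av (N : ℕ) (h : G) :
    Measurable (av N h : PontryaginDual G × PontryaginDual G → ℂ) := by
  unfold av
  refine Measurable.const_mul ?_ _
  exact Finset.measurable_sum _ fun n _ => (measurable_u h).pow_const n

omit [DiscreteTopology G] [MeasurableSpace (PontryaginDual G)] [BorelSpace (PontryaginDual G)] in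
theorem norm_av_le (N : ℕ) (h : G) (z : PontryaginDual G × PontryaginDual G) : ‖av N h z‖ ≤ 1 := by
  unfold av
  rw [norm_mul]
  have h1 : ‖∑ n ∈ Finset.range (N + 1), u z h ^ n‖ ≤ N + 1 := by
    refine (norm_sum_le _ _).trans ?_
    refine (Finset.sum_le_card_nsmul _ _ 1 fun n _ => ?_).trans ?_
    · rw [norm_pow, norm_u, one_pow]
    · simp
  have h2 : ‖(1 : ℂ) / ((N : ℂ) + 1)‖ = 1 / ((N : ℝ) + 1) := by
    rw [norm_div, norm_one]
    congr 1
    have : ((N : ℂ) + 1) = ((N + 1 : ℕ) : ℂ) := by push_cast; ring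
    rw [this, Complex.norm_natCast]
    push_cast
    ring
  rw [h2, one_div, inv_mul_le_iff₀ (by positivity), mul_one]
  exact h1

omit [DiscreteTopology G] [MeasurableSpace (PontryaginDual G)] [BorelSpace (PontryaginDual G)] in
open Classical in
theorem tendsto_av (h : G) (z : PontryaginDual G × PontryaginDual G) :
    Tendsto (fun N => av N h z) atTop (𝓝 (if u z h = 1 then 1 else 0)) := by
  by_cases h1 : u z h = 1
  · rw [if_pos h1]
    have : (fun N => av N h z) = fun _ => 1 := by
      funext N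
      unfold av
      rw [h1]
      simp only [one_pow, Finset.sum_const, Finset.card_range, nsmul_eq_mul, mul_one]
      push_cast
      rw [one_div, inv_mul_cancel₀]
      exact_mod_cast Nat.succ_ne_zero N
    rw [this]
    exact tendsto_const_nhds
  · rw [if_neg h1, tendsto_zero_iff_norm_tendsto_zero]
    have h2 : ∀ N : ℕ, ‖av N h z‖ ≤ 2 / ‖u z h - 1‖ * (1 / ((N : ℝ) + 1)) := by
      intro N
      unfold av
      rw [geom_sum_eq h1, norm_mul]
      have h3 : ‖u z h ^ (N + 1) - 1‖ ≤ 2 := by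
        refine (norm_sub_le _ _).trans ?_
        rw [norm_pow, norm_u, one_pow, norm_one]
        norm_num
      have h4 : ‖(1 : ℂ) / ((N : ℂ) + 1)‖ = 1 / ((N : ℝ) + 1) := by
        rw [norm_div, norm_one]
        congr 1
        have : ((N : ℂ) + 1) = ((N + 1 : ℕ) : ℂ) := by push_cast; ring
        rw [this, Complex.norm_natCast]
        push_cast
        ring
      rw [h4, mul_comm, norm_div]
      refine mul_le_mul_of_nonneg_right ?_ (by positivity)
      exact div_le_div_of_nonneg_right h3 (norm_nonneg _)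
    have h3 : Tendsto (fun N : ℕ => 2 / ‖u z h - 1‖ * (1 / ((N : ℝ) + 1))) atTop (𝓝 0) := by
      have := (tendsto_one_div_add_atTop_nhds_zero_nat (𝕜 := ℝ)).const_mul (2 / ‖u z h - 1‖)
      rwa [mul_zero] at this
    exact squeeze_zero (fun _ => norm_nonneg _) h2 h3

variable (μ : Measure (PontryaginDual G)) [IsFiniteMeasure μ]

/-- The functions whose means are computed. -/
noncomputable def TF (F : PontryaginDual G × PontryaginDual G → ℂ) (g : G) : ℝ :=
  (∫ z, F z * u z g ∂(μ.prod μ)).re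

omit [DiscreteTopology G] [BorelSpace (PontryaginDual G)] [IsFiniteMeasure μ] in
theorem TF_le (F : PontryaginDual G × PontryaginDual G → ℂ) (g : G) :
    ‖TF μ F g‖ ≤ ∫ z, ‖F z‖ ∂(μ.prod μ) := by
  unfold TF
  rw [Real.norm_eq_abs]
  refine (Complex.abs_re_le_norm _).trans ((norm_integral_le_integral_norm _).trans ?_)
  simp only [norm_mul, norm_u, mul_one]
  exact le_rfl

/-- The bounded function. -/
noncomputable def TB (F : PontryaginDual G × PontryaginDual G → ℂ) : G →ᵇ ℝ :=
  mk (TF μ F) _ (TF_le μ F)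

theorem integrable_mul {F : PontryaginDual G × PontryaginDual G → ℂ} (hF : Measurable F)
    (hF1 : ∀ z, ‖F z‖ ≤ 1) (g : G) : Integrable (fun z => F z * u z g) (μ.prod μ) := by
  refine Integrable.of_bound (hF.mul (measurable_u g)).aestronglyMeasurable 1
    (ae_of_all _ fun z => ?_)
  rw [norm_mul, norm_u, mul_one]
  exact hF1 z

/-- Averaging. -/
theorem mean_step {m : (G →ᵇ ℝ) →ₗ[ℝ] ℝ} (hi : IsInvariant m)
    {F : PontryaginDual G × PontryaginDual G → ℂ} (hF : Measurable F) (hF1 : ∀ z, ‖F z‖ ≤ 1)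
    (N : ℕ) (h : G) : m (TB μ F) = m (TB μ (fun z => F z * av N h z)) := by
  have h1 : TB μ (fun z => F z * av N h z) =
      (1 / ((N : ℝ) + 1)) • ∑ n ∈ Finset.range (N + 1), trans (h ^ n) (TB μ F) := by
    ext g
    rw [BoundedContinuousFunction.smul_apply, BoundedContinuousFunction.sum_apply]
    simp only [TB, trans, mk_apply, smul_eq_mul]
    unfold TF
    rw [← Complex.re_sum, ← integral_finsetSum]
    · have h2 : ∀ z, F z * av N h z * u z g = ((1 / ((N : ℝ) + 1) : ℝ) : ℂ) *
          ∑ n ∈ Finset.range (N + 1), F z * u z (g * h ^ n) := by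
        intro z
        unfold av
        simp only [u_mul, u_pow]
        push_cast
        rw [Finset.mul_sum, Finset.mul_sum, Finset.mul_sum, Finset.sum_mul]
        refine Finset.sum_congr rfl fun n _ => ?_
        ring
      simp only [h2]
      rw [integral_const_mul, Complex.re_ofReal_mul]
    · intro n _
      exact integrable_mul μ hF hF1 _
  rw [h1, map_smul, map_sum]
  simp only [hi _ _]
  rw [Finset.sum_const, Finset.card_range, smul_eq_mul, nsmul_eq_mul]
  push_cast
  have : (N : ℝ) + 1 ≠ 0 := by positivity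
  field_simp

theorem mean_many {m : (G →ᵇ ℝ) →ₗ[ℝ] ℝ} (hi : IsInvariant m) (N : ℕ) (H : Finset G) :
    m (TB μ (fun _ => 1)) = m (TB μ (fun z => ∏ h ∈ H, av N h z)) ∧
      Measurable (fun z : PontryaginDual G × PontryaginDual G => ∏ h ∈ H, av N h z) ∧
      ∀ z : PontryaginDual G × PontryaginDual G, ‖∏ h ∈ H, av N h z‖ ≤ 1 := by
  classical
  induction H using Finset.induction_on with
  | empty => simp
  | insert a H ha ih =>
    obtain ⟨h1, h2, h3⟩ := ih
    have e : ∀ z : PontryaginDual G × PontryaginDual G,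
        ∏ h ∈ insert a H, av N h z = (∏ h ∈ H, av N h z) * av N a z := by
      intro z
      rw [Finset.prod_insert ha, mul_comm]
    simp only [e]
    refine ⟨?_, h2.mul (measurable_av N a), fun z => ?_⟩
    · rw [h1]
      exact mean_step μ hi h2 h3 N a
    · rw [norm_mul]
      exact mul_le_one₀ (h3 z) (norm_nonneg _) (norm_av_le N a z)

/-- The pairs of characters that agree on `H`. -/
def D (H : Finset G) : Set (PontryaginDual G × PontryaginDual G) := {z | ∀ h ∈ H, z.1 h = z.2 h}

omit [DiscreteTopology G] [MeasurableSpace (PontryaginDual G)] [BorelSpace (PontryaginDual G)] in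
theorem u_eq_one_iff (z : PontryaginDual G × PontryaginDual G) (h : G) :
    u z h = 1 ↔ z.1 h = z.2 h := by
  unfold u
  have h1 : (starRingEnd ℂ) (z.1 h : ℂ) * (z.1 h : ℂ) = 1 := by
    rw [← Complex.normSq_eq_conj_mul_self, Circle.normSq_coe]
    simp
  constructor
  · intro h2
    have h3 : (z.1 h : ℂ) = (z.2 h : ℂ) := by
      have h4 : (z.1 h : ℂ) * ((starRingEnd ℂ) (z.1 h : ℂ) * (z.2 h : ℂ)) = (z.1 h : ℂ) := by
        rw [h2, mul_one]
      rw [← h4]
      linear_combination ((z.2 h : ℂ)) * h1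
    exact Circle.ext h3
  · intro h2
    rw [← h2]
    exact h1

theorem measurable_D (H : Finset G) :
    MeasurableSet (D H : Set (PontryaginDual G × PontryaginDual G)) := by
  have : (D H : Set (PontryaginDual G × PontryaginDual G)) =
      ⋂ h ∈ H, {z | u z h = 1} := by
    ext z
    simp only [D, Set.mem_iInter, Set.mem_ofPred_eq, u_eq_one_iff]
  rw [this]
  exact Finset.measurableSet_biInter _ fun h _ =>
    measurableSet_eq_fun (measurable_u h) measurable_const

theorem mean_le_D {m : (G →ᵇ ℝ) →ₗ[ℝ] ℝ} (hm : IsMean m) (hi : IsInvariant m) (H : Finset G) :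
    m (TB μ (fun _ => 1)) ≤ (μ.prod μ).real (D H) := by
  classical
  have h1 : ∀ N : ℕ, m (TB μ (fun _ => 1)) ≤ ∫ z, ‖∏ h ∈ H, av N h z‖ ∂(μ.prod μ) := by
    intro N
    rw [(mean_many μ hi N H).1]
    refine hm.le_const fun g => ?_
    exact (le_abs_self _).trans (TF_le μ _ g)
  have h2 : Tendsto (fun N => ∫ z, ‖∏ h ∈ H, av N h z‖ ∂(μ.prod μ)) atTop
      (𝓝 (∫ z, (D H).indicator (fun _ => (1 : ℝ)) z ∂(μ.prod μ))) := by
    refine tendsto_integral_of_dominated_convergence (fun _ => (1 : ℝ)) (fun N => ?_)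
      (integrable_const _) (fun N => ae_of_all _ fun z => ?_) (ae_of_all _ fun z => ?_)
    · exact ((mean_many μ hi N H).2.1.norm).aestronglyMeasurable
    · rw [norm_norm]
      exact (mean_many μ hi N H).2.2 z
    · have h3 : Tendsto (fun N => ∏ h ∈ H, av N h z) atTop
          (𝓝 (∏ h ∈ H, (if u z h = 1 then 1 else 0))) :=
        tendsto_finsetProd _ fun h _ => tendsto_av h z
      have h4 := h3.norm
      have h5 : ‖∏ h ∈ H, (if u z h = 1 then (1 : ℂ) else 0)‖ = (D H).indicator (fun _ => (1 : ℝ)) z := by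
        by_cases hz : z ∈ D H
        · rw [Set.indicator_of_mem hz, Finset.prod_eq_one]
          · simp
          · intro h hh
            rw [if_pos ((u_eq_one_iff z h).2 (hz h hh))]
        · rw [Set.indicator_of_notMem hz]
          simp only [D, Set.mem_ofPred_eq, not_forall] at hz
          obtain ⟨h, hh, hne⟩ := hz
          rw [Finset.prod_eq_zero hh, norm_zero]
          rw [if_neg]
          rwa [u_eq_one_iff]
      rwa [h5] at h4
  have h3 := ge_of_tendsto' h2 h1
  have h4 : ∫ z, (D H).indicator (fun _ => (1 : ℝ)) z ∂(μ.prod μ) = (μ.prod μ).real (D H) := by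
    have := integral_indicator_one (μ := μ.prod μ) (measurable_D (G := G) H)
    exact this
  rwa [h4] at h3

omit [BorelSpace (PontryaginDual G)] [IsFiniteMeasure μ] in
/-- Small cosets. -/
theorem exists_small (hreg : μ.Regular) (hat : ∀ χ, μ {χ} = 0) {ε : ENNReal} (hε : ε ≠ 0) :
    ∃ H : Finset G, ∀ ψ : PontryaginDual G, μ {χ | ∀ h ∈ H, χ h = ψ h} ≤ ε := by
  classical
  let e : PontryaginDual G → (G → Circle) := fun χ g => χ g
  have he : Continuous e := continuous_pi fun g => continuous_eval_const (F := G →ₜ* Circle) g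
  have hinj : Function.Injective e := fun χ ψ h => PontryaginDual.ext fun g => congrFun h g
  have hemb : IsClosedEmbedding e := he.isClosedEmbedding hinj
  have h1 : ∀ χ : PontryaginDual G, ∃ (V : Set (PontryaginDual G)) (I : Finset G), IsOpen V ∧
      χ ∈ V ∧ μ V ≤ ε ∧ ∀ ψ ∈ V, ∀ ψ' : PontryaginDual G, (∀ h ∈ I, ψ' h = ψ h) → ψ' ∈ V := by
    intro χ
    obtain ⟨U, hU1, hU2, hU3⟩ := Set.exists_isOpen_lt_of_lt ({χ} : Set (PontryaginDual G)) ε (by
      rw [hat χ]
      exact pos_iff_ne_zero.2 hε)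
    obtain ⟨W, hW1, hW2⟩ := hemb.isInducing.isOpen_iff.1 hU2
    have hχ : e χ ∈ W := by
      have : χ ∈ U := hU1 rfl
      rw [← hW2] at this
      exact this
    obtain ⟨I, v, hv1, hv2⟩ := isOpen_pi_iff.1 hW1 (e χ) hχ
    refine ⟨e ⁻¹' ((I : Set G).pi v), I, ?_, ?_, ?_, ?_⟩
    · exact (isOpen_set_pi I.finite_toSet fun a ha => (hv1 a ha).1).preimage he
    · exact fun a ha => (hv1 a ha).2
    · refine (measure_mono ?_).trans hU3.le
      rw [← hW2]
      exact Set.preimage_mono hv2
    · intro ψ hψ ψ' h a ha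
      have h3 : e ψ' a = e ψ a := h a ha
      rw [h3]
      exact hψ a ha
  choose V I hV1 hV2 hV3 hV4 using h1
  obtain ⟨t, -, ht⟩ := (isCompact_univ (X := PontryaginDual G)).elim_nhds_subcover V
    (fun χ _ => (hV1 χ).mem_nhds (hV2 χ))
  refine ⟨t.biUnion I, fun ψ => ?_⟩
  have h2 := ht (Set.mem_univ ψ)
  simp only [Set.mem_iUnion] at h2
  obtain ⟨χ, hχ, hψ⟩ := h2
  refine (measure_mono fun ψ' hψ' => ?_).trans (hV3 χ)
  exact hV4 χ ψ hψ ψ' fun h hh => hψ' h (Finset.mem_biUnion.2 ⟨χ, hχ, hh⟩)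

theorem prod_D_le {H : Finset G} {ε : ENNReal}
    (h : ∀ ψ : PontryaginDual G, μ {χ | ∀ h ∈ H, χ h = ψ h} ≤ ε) :
    (μ.prod μ) (D H) ≤ ε * μ Set.univ := by
  rw [Measure.prod_apply (measurable_D H)]
  calc ∫⁻ χ, μ (Prod.mk χ ⁻¹' D H) ∂μ ≤ ∫⁻ _, ε ∂μ := by
        refine lintegral_mono fun χ => ?_
        refine (measure_mono fun ψ hψ => ?_).trans (h χ)
        intro a ha
        exact (hψ a ha).symm
    _ = ε * μ Set.univ := by rw [lintegral_const]

omit [BorelSpace (PontryaginDual G)] in
theorem TB_eq (g : G) : TB μ (fun _ => 1) g = ‖KMFMeans.hat μ g‖ ^ 2 := by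
  simp only [TB, mk_apply, TF, one_mul, u]
  rw [integral_prod_mul (fun χ : PontryaginDual G => (starRingEnd ℂ) (χ g : ℂ))
    (fun χ : PontryaginDual G => (χ g : ℂ))]
  have h1 : ∫ χ : PontryaginDual G, (χ g : ℂ) ∂μ = (starRingEnd ℂ) (KMFMeans.hat μ g) := by
    rw [KMFMeans.hat, ← integral_conj]
    simp
  rw [h1]
  change (KMFMeans.hat μ g * (starRingEnd ℂ) (KMFMeans.hat μ g)).re = _
  rw [Complex.mul_conj, Complex.ofReal_re, Complex.normSq_eq_norm_sq]

/-- **Wiener's lemma for invariant means.** -/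
theorem wiener {m : (G →ᵇ ℝ) →ₗ[ℝ] ℝ} (hm : IsMean m) (hi : IsInvariant m) (hreg : μ.Regular)
    (hat : ∀ χ, μ {χ} = 0) : m (absHat μ) = 0 := by
  have h1 : m (TB μ (fun _ => 1)) ≤ 0 := by
    refine le_of_forall_pos_le_add fun δ hδ => ?_
    set C : ℝ := μ.real Set.univ with hC
    have hC0 : 0 ≤ C := measureReal_nonneg
    obtain ⟨H, hH⟩ := exists_small μ hreg hat (ε := ENNReal.ofReal (δ / (C + 1)))
      (by
        rw [Ne, ENNReal.ofReal_eq_zero, not_le]
        positivity)
    have h2 := prod_D_le μ hH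
    have h3 := mean_le_D μ hm hi H
    refine h3.trans ?_
    rw [zero_add]
    have h4 : (μ.prod μ).real (D H) ≤ δ / (C + 1) * C := by
      rw [Measure.real]
      have h5 := ENNReal.toReal_mono (by
        exact ENNReal.mul_ne_top ENNReal.ofReal_ne_top (measure_ne_top _ _)) h2
      rw [ENNReal.toReal_mul, ENNReal.toReal_ofReal (by positivity)] at h5
      exact h5
    refine h4.trans ?_
    rw [div_mul_eq_mul_div, div_le_iff₀ (by positivity)]
    nlinarith
  apply le_antisymm
  · refine le_of_forall_pos_le_add fun δ hδ => ?_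
    have h2 := hm.mono (f := absHat μ) (f' := δ • (1 : G →ᵇ ℝ) + (1 / δ) • TB μ (fun _ => 1))
      (fun g => by
        rw [BoundedContinuousFunction.add_apply, BoundedContinuousFunction.smul_apply,
          BoundedContinuousFunction.smul_apply, TB_eq, absHat, mk_apply]
        simp only [BoundedContinuousFunction.coe_one, Pi.one_apply, smul_eq_mul, mul_one]
        set t := ‖KMFMeans.hat μ g‖
        have ht : 0 ≤ t := norm_nonneg _
        have h3 : t ≤ δ + 1 / δ * t ^ 2 := by
          have h4 : t * δ ≤ δ * δ + t ^ 2 := by nlinarith [sq_nonneg (t - δ / 2)]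
          have h5 : (δ + 1 / δ * t ^ 2) * δ = δ * δ + t ^ 2 := by field_simp
          nlinarith
        exact h3)
    rw [map_add, map_smul, map_smul, hm.one, smul_eq_mul, smul_eq_mul, mul_one] at h2
    have h3 : 1 / δ * m (TB μ (fun _ => 1)) ≤ 0 :=
      mul_nonpos_of_nonneg_of_nonpos (by positivity) h1
    linarith
  · exact hm.nonneg _ fun g => absHat_nonneg μ g

end Wiener

/-- **Every expanding set supports a KMF mean.** -/
theorem result (S : Set G) (hS : Expanding S) : SupportsKMF S := by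
  classical
  -- an invariant mean for every Bohr set
  have h1 : ∀ B : Set G, IsBohr B →
      ∃ m : (G →ᵇ ℝ) →ₗ[ℝ] ℝ, IsMean m ∧ IsInvariant m ∧ 0 < m (ind (S ∩ B)) := by
    intro B hB
    by_contra hcon
    push Not at hcon
    have h2 : dstar (S ∩ B) = 0 := by
      unfold dstar
      apply le_antisymm
      · apply Real.sSup_nonpos
        rintro r ⟨m, hm, hi, rfl⟩
        exact hcon m hm hi
      · apply Real.sSup_nonneg
        rintro r ⟨m, hm, -, rfl⟩
        exact hm.ind_nonneg _
    obtain ⟨g, hg1, hg2, hg3⟩ := hS B (S ∩ B) hB h2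
    exact hg3 ⟨hg1, hg2⟩
  -- the net of Bohr sets
  let B : Finset (PontryaginDual G) × ℕ → Set G := fun i =>
    {g | ∀ χ ∈ i.1, ‖(χ g : ℂ) - 1‖ < 1 / ((i.2 : ℝ) + 1)}
  have hB : ∀ i, IsBohr (B i) := fun i => ⟨i.1, 1 / ((i.2 : ℝ) + 1), by positivity, rfl⟩
  choose m hm hi hpos using fun i => h1 (B i) (hB i)
  let 𝒰 : Ultrafilter (Finset (PontryaginDual G) × ℕ) := Ultrafilter.of atTop
  obtain ⟨M, hM, hlim⟩ := exists_limit 𝒰 (fun i => restrict (m i) (S ∩ B i))
    (fun i => isMean_restrict (hm i) (hpos i))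
  refine ⟨M, hM, ?_, ?_, ?_⟩
  · refine tendsto_nhds_unique (hlim (ind S)) ?_
    simp only [restrict_ind (hpos _) Set.inter_subset_left]
    exact tendsto_const_nhds
  · intro ms hb μ hμ hreg hat
    refine tendsto_nhds_unique (hlim (absHat μ)) ?_
    have h2 : ∀ i, restrict (m i) (S ∩ B i) (absHat μ) = 0 := by
      intro i
      rw [restrict_apply]
      have h3 : m i (absHat μ * ind (S ∩ B i)) = 0 := by
        apply le_antisymm
        · rw [← wiener μ (hm i) (hi i) hreg hat]
          refine (hm i).mono fun g => ?_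
          rw [BoundedContinuousFunction.mul_apply]
          have h4 : 0 ≤ absHat μ g := absHat_nonneg μ g
          have h5 : ind (S ∩ B i) g ≤ 1 := (le_abs_self _).trans (ind_bound _ g)
          nlinarith
        · refine (hm i).nonneg _ fun g => ?_
          rw [BoundedContinuousFunction.mul_apply]
          have h4 : 0 ≤ absHat μ g := absHat_nonneg μ g
          have h5 : 0 ≤ ind (S ∩ B i) g := Set.indicator_nonneg (fun _ _ => zero_le_one) g
          positivity
      rw [h3, mul_zero]
    simp only [h2]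
    exact tendsto_const_nhds
  · rintro B' ⟨T, ε, hε, rfl⟩
    obtain ⟨n, hn⟩ := exists_nat_one_div_lt hε
    have h2 : Tendsto (fun i => restrict (m i) (S ∩ B i) (ind {g | ∀ χ ∈ T, ‖(χ g : ℂ) - 1‖ < ε}))
        𝒰 (𝓝 1) := by
      refine Tendsto.mono_left ?_ (Ultrafilter.of_le atTop)
      refine tendsto_const_nhds.congr' ?_
      filter_upwards [eventually_ge_atTop ((T, n) : Finset (PontryaginDual G) × ℕ)] with i hi'
      rw [restrict_ind (hpos i)]
      intro g hg χ hχ
      have h3 : ‖(χ g : ℂ) - 1‖ < 1 / ((i.2 : ℝ) + 1) := hg.2 χ (hi'.1 hχ)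
      have h4 : 1 / ((i.2 : ℝ) + 1) ≤ 1 / ((n : ℝ) + 1) := by
        apply one_div_le_one_div_of_le (by positivity)
        have : (n : ℝ) ≤ i.2 := by exact_mod_cast hi'.2
        linarith
      linarith
    rw [tendsto_nhds_unique (hlim _) h2]
    exact one_pos

end Pool.Agent.Results.MP_49446c_co.KMFMeans
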